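import Pool.Agent.Run7.h798.Tate.Frob

/-!
# MP_93fb11_ag, Q1: semisimplicity of Frobenius and singular cubic hypersurfaces

`D` is the `ℓ`-adic cohomology of the schemes in characteristic `p`. For a scheme `X` over the prime field
`h r j X` is the part of lowest weight of `H_{2j-r}(X̄, ℚ_ℓ)` (homology with closed supports), twisted by
`-j`; for `X` smooth projective of dimension `d` it is `H^i(X̄, ℚ_ℓ)(d-j)` with `i = 2(d-j) + r`.
-/

set_option autoImplicit false

open CategoryTheory AlgebraicGeometry Pool.Agent.Y116.UV Pool.Agent.Q193.LT Pool.Agent.Q282.UK
  Pool.Agent.Q282.UZ Run7.h798.UV Run7.h798.Tate Run7.h798.Tate.Frob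

namespace Pool.Agent.Results.MP_93fb11_ag.CubicHypersurfaces

/-- **Theorem.** Let `p` be a prime, `r` a weight and `N` a natural number. The following are equivalent:

* (Q1) Frobenius is semisimple on the cohomology of all smooth projective varieties over all finite fields
  of characteristic `p`, in all degrees congruent to `r` modulo `2`;
* Frobenius is semisimple on the part of lowest weight of the homology `H_{2j-r}(X̄, ℚ_ℓ)` for all
  separated schemes `X` of finite type over `𝔽_p` and all `j`;
* this is true in the dimensions `j ≥ N` for the (singular) cubic hypersurfaces in the projective spaces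
  over `𝔽_p`;
* this is true in the dimensions `j ≥ N` for the cubic hypersurfaces over `𝔽_p` given by trilinear forms
  `∑_l z_l f_l(x, y)` in which every `f_l` is a sum of at most three monomials `x_i y_j`.

The proof shows that the cohomology of every smooth projective variety over `𝔽_p` is a quotient of the part
of lowest weight of the homology of one such cubic hypersurface. -/
theorem result {p : ℕ} [Fact p.Prime] {E : Type} [Field E] [CharZero E] (D : Theory p E) (r : ℤ)
    (N : ℕ) : [D.SmoothProj r, D.All r, D.Cubics r N, D.Trilinear r N].TFAE :=
  main D r N

end Pool.Agent.Results.MP_93fb11_ag.CubicHypersurfaces
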