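import Mathlib
import Pool.Agent.Run7.h200.SS.Main

/-!
# Group actions and the semisimplicity of Frobenius

Let `W` be a Weil cohomology theory (the `ℓ`-adic cohomology of the smooth projective varieties over a
finite field `k`, with coefficients in the algebraic closure of `ℚ_ℓ`), `φ` an endomorphism of `X` (the
Frobenius), and let a finite group `G` act on `X` by automorphisms which commute with `φ` (this is
automatic for the Frobenius, if `G` acts over `k`). For a subgroup `H` of `G` let `J H` be the
assertion that every class in `H^i(X)^H = H^i(X/H)` is a sum of eigenvectors of `φ^*`: `φ^*` acts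
semisimply on the cohomology of the quotient `X/H`.

(1) `J 1` is the semisimplicity on `H^i(X)`.

(2) `J H` follows from the semisimplicity of `ψ^*` on `H^i(Y)` if `f : X → Y` is a morphism to a variety
of the same dimension with `f^* f_* = ∑_{h ∈ H} h` (for example the quotient map, if `X/H` is
smooth), and `ψ f = f φ`.

(3) `Sieve`: let `K` be a commutative group of automorphisms, and `R_j` subgroups with `J R_j`. Then
the semisimplicity on `H^i(X)` is equivalent to the assertions `J D` for the `D ⊆ K` for which `K/D` is
cyclic and which contain no `R_j`.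

(4) The semisimplicity on `H^i(X)` is equivalent to the assertions for all the quotients of a dominating
family of subgroups; for the quotients `X/D` with `K/D` cyclic, `K` commutative; by the components of a
partition of a subgroup; for `X/⟨c⟩` and `X/[G, c]`, `c` an involution; for
`X/⟨c⟩` if `c` is contained in a nonabelian simple subgroup; for `X/A_k` if `A_n` acts and
`(k - 1) ^ 2 < n`; and for `X/A_k` and the quotient by the even permutations preserving `k - 1`
classes, `2 ≤ k ≤ n` (`Criteria`).

(5) If the symmetric group `S_n` acts, `(k - 1) ^ 2 < n`: `φ^*` is semisimple on `H^i(X)` if and only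
if this is so for `X/S_k` and all classes which are alternating for `S_k` are sums of eigenvectors.

(6) If `φ^*` is not semisimple on `H^i(X)`, but semisimple for the quotients by the subgroups of prime
order, then `G` acts freely on the nonzero vectors of an irreducible representation which occurs
in `H^i(X)` outside of the span of the eigenvectors, the commutative subgroups and the subgroups of
order `p q` of `G` are cyclic, and `G` has at most one involution.
-/

set_option autoImplicit false

open CategoryTheory Equiv Pool.Agent.H914 Pool.Agent.H914.VarClass Pool.Agent.H914.VarClass.Obj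
  Run7.h200.Van Run7.h200.Qr Run7.h200.SS
open Run7.h200.Pr (Criteria Sieve)
open Run7.h200.GR (actW IsQuot)

universe u v

namespace Pool.Agent.Results.MP_93fb11_ag.GroupActions

/-- `J H`: every class in `H^i(X)` which is invariant under `H` is a sum of eigenvectors of `φ^*`. -/
def J {k : Type u} [Field k] {𝒱 : VarClass k} {ops : CycleOps 𝒱} (W : WeilCohomology.{u, v} ops)
    {X : 𝒱.Obj} {G : Type} [Group G] (a : G →* Aut X) (φ : X ⟶ X) (i : ℕ) (H : Subgroup G) : Prop :=
  InvIn (actW W a) (Deg W i) (Eig W φ) H

/-- **Group actions and the semisimplicity of Frobenius.** -/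
theorem result {k : Type u} [Field k] {𝒱 : VarClass k} {ops : CycleOps 𝒱}
    (W : WeilCohomology.{u, v} ops) (X : 𝒱.Obj) {G : Type} [Group G] [Finite G] (a : G →* Aut X)
    (φ : X ⟶ X) (hφ : Commutes a φ) (i : ℕ) :
    (J W a φ i ⊥ ↔ Diag W φ i) ∧
    (∀ (H : Subgroup G) (Y : 𝒱.Obj) (f : X ⟶ Y) (ψ : Y ⟶ Y), IsQuot W a H f → f ≫ ψ = φ ≫ f →
      Diag W ψ i → J W a φ i H) ∧
    (∀ (H : Subgroup G) (ι : Type) (E : ι → Subgroup G), Dom (actW W a) (Deg W i) (Eig W φ) H E →
      (∀ j, J W a φ i (E j)) → J W a φ i H) ∧
    Criteria (J W a φ i) ∧ Sieve (J W a φ i) ∧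
    (∀ (n r : ℕ) (e : Perm (Fin n) →* G), 2 ≤ r → (r - 1) ^ 2 < n →
      (J W a φ i ⊥ ↔ J W a φ i ((symSub n r).map e) ∧
        AltIn (actW W a) (Deg W i) (Eig W φ) e r)) ∧
    (¬ J W a φ i ⊥ → (∀ D : Subgroup G, (Nat.card D).Prime → J W a φ i D) →
      Fre (actW W a) (Deg W i) (Eig W φ) ∧ CyclicSubgroups G) := by
  refine ⟨eig_bot a φ i, fun H Y f ψ hf hψ hY => eig_quot hf hψ hY, ?_⟩
  exact mainSS W a hφ i

end Pool.Agent.Results.MP_93fb11_ag.GroupActions
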