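import Pool.Agent.Run7.h514.MT.FrobFam

/-!
# Semisimplicity of Frobenius on all cohomology groups of products of hyperkähler varieties

Let `V_1, …, V_r` be projective hyperkähler varieties over a number field `K`, of any deformation types,
and let `Y` be their product.

**Theorem.** If the element `σ` of the absolute Galois group of `K` acts semisimply on each
`H²(V_s, ℚ_ℓ)`, then it acts semisimply on `H^i(Y, ℚ_ℓ)` for all `i`.

At a place `v` of good reduction, not above `ℓ`, let `σ` be a Frobenius element: `H^i(Y, ℚ_ℓ)` is the
cohomology of the reduction of `Y` at `v` (a smooth projective variety over a finite field), and `σ` is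
semisimple on the `H²(V_s)` (Deligne, André: Kuga-Satake varieties and the theorem of Weil for abelian
varieties). So the Frobenius of the reduction of `Y` is semisimple on all its cohomology groups.

Idea of the proof. Let `φ_i` be the action of `σ` on `H^i(V)`, `V` one of the varieties. The conjugation
by `φ_i` preserves the image of `so(H²)` in `End(H^i)`, where it is the conjugation by `φ_2`, which is
diagonalizable. Hence the unipotent part `u` of `φ_i` commutes with `so(H²)`. An open subgroup `U` of
the Galois group acts trivially on the commutant of `so(H²)` in `End(H^i)` (Sen's operators and the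
slopes at the good places are given by elements of `so(H²)`; Chebotarev's theorem, class field theory).
If `σ ^ N ∈ U`, the power `u ^ N`, a polynomial in `φ_i ^ N`, commutes with the commutant. So
`u ^ N - 1` is a nilpotent element of the centre of the commutant. As `H^i` is a semisimple
representation of `so(H²)` (Weyl) it is zero, and so `u = 1`. For products use the Künneth formula.
-/

set_option autoImplicit false

namespace Pool.Agent.Results.MP_93fb11_ag.HyperkaehlerProducts

open Run7.h457.MT NumberField Pool.Agent.W401.Cheb

/-- **Semisimplicity of Frobenius.** Let `V s`, `s ∈ S`, be projective hyperkähler varieties over the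
number field `K`. If the minimal polynomial of the element `σ` of the Galois group on `H²(V s, ℚ_ℓ)` is
squarefree for all `s`, then the minimal polynomial of `σ` on `H^i` of the product of the `V s` is
squarefree for all `i`. -/
theorem result {K : Type} [Field K] [NumberField K] {ℓ : ℕ} [Fact ℓ.Prime] {S : Type} [Fintype S]
    [DecidableEq S] (V : S → HK K ℓ) {σ : GK K}
    (h : ∀ s, Squarefree (minpoly ℚ_[ℓ] ((V s).C.G 2 σ))) (i : ℕ) :
    Squarefree (minpoly ℚ_[ℓ] (gal V i σ)) :=
  Run7.h514.MT.ss_gal V h i

end Pool.Agent.Results.MP_93fb11_ag.HyperkaehlerProducts
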