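import Pool.Agent.Run7.h731.SE.Transfer

/-!
# The proportion of the eigenvectors of Frobenius in the cohomology

For a variety `V` on whose cohomology the Frobenius does not act semisimply, the proportion of the eigenvectors in the
cohomology of `V ^ n` tends to `0`, and so does the proportion of the Tate classes among the generalized Tate classes.
So the semisimplicity for all `V` is equivalent to a lower bound for one of these proportions.
-/

set_option autoImplicit false

namespace Pool.Agent.Results.MP_93fb11_ag.ProportionOfEigenvectors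

open Filter Topology Pool.Agent.Run7.h731.SE

universe u v w

theorem result {q : ℕ} (hq : 0 < q) {E : Type u} [Field E] [IsAlgClosed E] [CharZero E]
    (C : Cohomology.{u, v, w} q E) :
    (∀ V : C.Var, ((∀ r, C.Semisimple V r) → C.Full V) ∧ ((¬ ∀ r, C.Semisimple V r) → C.Sparse V)) ∧
    [∀ (V : C.Var) (r : ℕ), C.Semisimple V r,
      ∃ ε : ℝ, 0 < ε ∧ C.EigenProportion fun _ => ε,
      ∃ φ : ℕ → ℝ, ToInfinity (fun b => φ b * Real.sqrt (Real.log b)) ∧
        C.EigenProportion fun V => φ (C.betti V),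
      ∃ φ : ℕ → ℝ, (∀ d, 0 < φ d) ∧ ToInfinity (fun d => φ d * Real.sqrt d) ∧
        C.EigenProportion fun V => φ (C.dim V),
      ∃ ψ : ℕ → ℕ, Tendsto (fun d : ℕ => (ψ d : ℝ) / d) atTop (𝓝 0) ∧
        ∀ (V : C.Var) (r : ℕ), (C.H V r).BlocksLe (ψ (C.dim V)),
      ∃ ε : ℝ, 0 < ε ∧ C.TateProportion ε].TFAE := by
  refine ⟨fun V => ⟨C.full, C.sparse hq⟩, ?_⟩
  tfae_have 1 → 2 := by
    intro h
    refine ⟨1, one_pos, fun V => ?_⟩
    rw [one_mul, ← C.un_betti, ← C.un_eigenDim, C.un.eigenDim_eq (h V)]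
  tfae_have 2 → 3 := by
    rintro ⟨ε, hε, h⟩
    refine ⟨fun _ => ε, ?_, fun V => h V⟩
    refine Tendsto.const_mul_atTop hε ?_
    exact Real.tendsto_sqrt_atTop.comp (Real.tendsto_log_atTop.comp tendsto_natCast_atTop_atTop)
  tfae_have 2 → 4 := by
    rintro ⟨ε, hε, h⟩
    refine ⟨fun _ => ε, fun _ => hε, ?_, fun V => h V⟩
    refine Tendsto.const_mul_atTop hε ?_
    exact Real.tendsto_sqrt_atTop.comp tendsto_natCast_atTop_atTop
  tfae_have 3 → 1 := by
    rintro ⟨φ, h1, h2⟩ V r
    exact FrobCohomology.semisimple_of_log (C := C.un) φ h1 h2 V r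
  tfae_have 4 → 1 := by
    rintro ⟨φ, h1, h2, h3⟩ V r
    exact FrobCohomology.semisimple_of_dim (C := C.un) φ h1 h2 h3 V r
  tfae_have 1 → 5 := by
    intro h
    refine ⟨fun _ => 1, ?_, fun V r ν => ?_⟩
    · simpa using tendsto_one_div_atTop_nhds_zero_nat (𝕜 := ℝ)
    · rw [maxGen_eq_of_semisimple (h V r)]
      exact le_of_eq (by simp [Module.End.eigenspace])
  tfae_have 5 → 1 := by
    rintro ⟨ψ, h1, h2⟩ V r
    exact FrobCohomology.semisimple_of_blocks (C := C.un) ψ h1 h2 V r
  tfae_have 1 → 6 := by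
    intro h
    refine ⟨1, one_pos, fun V => ?_⟩
    rw [one_mul, ← C.un_tateDim, ← C.un_genTateDim, C.un.tateDim_eq_gen (h V)]
  tfae_have 6 → 1 := by
    rintro ⟨ε, hε, h⟩ V r
    exact FrobCohomology.semisimple_of_tate (C := C.un) hq hε h V r
  tfae_finish

end Pool.Agent.Results.MP_93fb11_ag.ProportionOfEigenvectors
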